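import Pool.Agent.Work.MP_ceb7a8_co.Final1
import Pool.Agent.Work.MP_ceb7a8_co.L6Glue

/-!
For almost every graph on n labelled vertices at most a fraction 3 / log n of all consistent path
systems is metrizable or reducible.
-/

open CEBL in
theorem Pool.Agent.Results.MP_ceb7a8_co.AlmostNone.result :
    ∃ ε : ℕ → ℝ, (∀ n, ε n = 3 / Real.log n) ∧ Filter.Tendsto ε Filter.atTop (nhds 0) ∧
      Filter.Tendsto (fun n : ℕ =>
        ({G : SimpleGraph (Fin n) |
          ¬ (({P : Fin n → Fin n → List (Fin n) | IsSystem G P ∧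
                (Metrizable G P ∨ Reducible P)}.ncard : ℝ) ≤
              ε n * ({P : Fin n → Fin n → List (Fin n) | IsSystem G P}.ncard : ℝ))}.ncard :
            ℝ) / (Nat.card (SimpleGraph (Fin n)) : ℝ)) Filter.atTop (nhds 0) :=
  CEB.Asm.final fun n _ hG hn => CEB.metr_rare hG (by rw [Fintype.card_fin]; exact hn)
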